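import Pool.Agent.TH639.SG.Bnd

/-!
Cyclic coverings of the plane of degree `ℓ ^ a` over a finite field, branched along a smooth curve
with one point at infinity: if the number of rational points of the Jacobian of the branch curve is
prime to `ℓ`, then the Tate conjecture for divisors holds for the covering.
-/

set_option autoImplicit false
set_option maxHeartbeats 1000000

open Polynomial

namespace Pool.Agent.Results.MP_8ac872_ag.BranchCurveClassNumber

/-- The closed points of the affine line over the field `F`: monic irreducible polynomials. -/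
abbrev ClosedPt (F : Type) [Field F] : Type := {P : F[X] // P.Monic ∧ Irreducible P}

/-- The Euler product: its coefficient of index `n` is that of the product of the factors of degree
at most `n`. -/
noncomputable def eulerProduct {ι A : Type} [CommRing A] (d : ι → ℕ) (f : ι → PowerSeries A) :
    PowerSeries A :=
  PowerSeries.mk fun n => PowerSeries.coeff n (∏ᶠ (i : ι) (_ : d i ≤ n), f i)

/-- The Euler factor `1 - χ(N g(Q)) T ^ n` at the closed point `Q`, of degree `n`, of the line over a
finite extension `F` of `k`: here `N g(Q)` is the norm to `k` of the value of the polynomial `g` at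
`Q`, and `χ(0) = 0`. -/
noncomputable def localFactor {k A F : Type} [Field k] [CommRing A] [Field F] [Algebra k F]
    (χ : MulChar k A) (g Q : F[X]) (n : ℕ) : PowerSeries A :=
  1 - PowerSeries.C (χ (Algebra.norm k (AdjoinRoot.mk Q g))) * PowerSeries.X ^ n

open Classical in
/-- The monic irreducible factors of a polynomial. -/
noncomputable def primes {F : Type} [Field F] (g : F[X]) : Finset F[X] :=
  (UniqueFactorizationMonoid.normalizedFactors g).toFinset

/-- The greatest power of `ℓ` dividing `n`. -/
def lPart (ℓ n : ℕ) : ℤ := (ℓ : ℤ) ^ padicValNat ℓ n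

section defs

variable {k : Type} [Field k]

/-- The residue field of the closed point `P` of the `t`-line. -/
def Res (P : ClosedPt k) : Type := AdjoinRoot P.1

noncomputable instance resField (P : ClosedPt k) : Field (Res P) :=
  @AdjoinRoot.instField k _ P.1 ⟨P.2.2⟩

noncomputable instance resAlgebra (P : ClosedPt k) : Algebra k (Res P) :=
  inferInstanceAs (Algebra k (AdjoinRoot P.1))

/-- The value at `P`, a homomorphism from the ring of polynomials in `t` to the residue field. -/
noncomputable def value (P : ClosedPt k) : k[X] →+* Res P := AdjoinRoot.mk P.1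

/-- The fibre over `P` of the polynomial `F(t, x)`, a polynomial in `x` with coefficients in `k[t]`. -/
noncomputable def fibre (F : k[X][X]) (P : ClosedPt k) : (Res P)[X] := F.map (value P)

/-- The closed points of the `(t, x)`-plane with `D(t) ≠ 0`: a closed point of the `t`-line and a
closed point of the `x`-line over its residue field. -/
structure PlanePt (D : k[X]) : Type where
  place : ClosedPt k
  ndvd : ¬ place.1 ∣ D
  point : ClosedPt (Res place)

/-- The degree of a closed point of the plane. -/
noncomputable def PlanePt.deg {D : k[X]} (z : PlanePt D) : ℕ :=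
  z.place.1.natDegree * z.point.1.natDegree

/-- The Euler factor of a closed point of the plane, with the polynomial `D(t) F(t, x)`. -/
noncomputable def PlanePt.factor {A : Type} [CommRing A] {D : k[X]} (χ : MulChar k A) (F : k[X][X])
    (z : PlanePt D) : PowerSeries A :=
  localFactor χ (C (value z.place D) * fibre F z.place) z.point.1 z.deg

/-- The `L`-function in the variable `T = q ^ (-s)` of the `χ`-part of the Jacobian of the curve
`y ^ N = D(t) F(t, x)` over `k(t)`: the product of the factors of the closed points of the plane with
`D(t) ≠ 0`. The factors at the places dividing `D` and at `t = ∞` are one. -/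
noncomputable def Lfun {A : Type} [CommRing A] (χ : MulChar k A) (F : k[X][X]) (D : k[X]) :
    PowerSeries A :=
  eulerProduct (fun z : PlanePt D => z.deg) (fun z => z.factor χ F)

/-- `L(T)` is a polynomial, the product of the `(1 - q ζ T) ^ (r ζ)`, for the elements `ζ` of `Z`, and
a polynomial over `A`: it vanishes to order at least `r ζ` at `T = 1 / (q ζ)`. -/
def VanishesTo {A : Type} [CommRing A] (χ : MulChar k A) (F : k[X][X]) (D : k[X]) (Z : Finset A)
    (r : A → ℕ) : Prop :=
  ∃ H : A[X], Lfun χ F D =
    (((∏ ζ ∈ Z, (1 - C ((Nat.card k : A) * ζ) * X) ^ r ζ) * H : A[X]) : PowerSeries A)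

/-- The closed points of the affine curve `F(t, x) = 0`. -/
structure CurvePt (F : k[X][X]) : Type where
  place : ClosedPt k
  point : ClosedPt (Res place)
  dvd : point.1 ∣ fibre F place

/-- The degree of a closed point of the curve. -/
noncomputable def CurvePt.deg {F : k[X][X]} (z : CurvePt F) : ℕ :=
  z.place.1.natDegree * z.point.1.natDegree

/-- The inverse of the zeta function of the affine curve `F(t, x) = 0`. -/
noncomputable def zetaInv (F : k[X][X]) : PowerSeries ℤ :=
  eulerProduct (fun z : CurvePt F => z.deg) (fun z => 1 - PowerSeries.X ^ z.deg)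

/-- The polynomial `L` is the numerator of the zeta function: the zeta function of the affine curve is
`L(T) / (1 - q T)`. If the curve is smooth and has one point at infinity, which is rational, then `L`
is the numerator of the zeta function of the projective curve, and `L(1)` is the number of rational
points of its Jacobian. -/
def IsNumerator (F : k[X][X]) (L : ℤ[X]) : Prop :=
  zetaInv F * (L : PowerSeries ℤ) = ((1 - C (Nat.card k : ℤ) * X : ℤ[X]) : PowerSeries ℤ)

/-- The multiplicity of the zero one of the reduction of `L` modulo `ℓ`. -/
noncomputable def multOne (ℓ : ℕ) (L : ℤ[X]) : ℕ :=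
  (L.map (Int.castRingHom (ZMod ℓ))).rootMultiplicity 1

/-- The partial derivative of `F(t, x)` with respect to `t`. -/
noncomputable def tDerivative (F : k[X][X]) : k[X][X] := F.sum fun i a => C (derivative a) * X ^ i

/-- The affine curve `F(t, x) = 0` is smooth, with `F` monic of degree `n` in `x`, of degree `d` in
`t` for `x = 0`, with `n` and `d` relatively prime and the other monomials `t ^ j x ^ i` of `F` under
the line: `n j < d (n - i)`. So there is one point at infinity. The characteristic does not divide
`n`, nor does `ℓ`. -/
structure IsBranchCurve (ℓ n d : ℕ) (F : k[X][X]) : Prop where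
  monic : F.Monic
  degree : F.natDegree = n
  degree_zero : (F.coeff 0).natDegree = d
  coprime : Nat.Coprime n d
  under : ∀ i, 0 < i → i < n → n * (F.coeff i).natDegree < d * (n - i)
  tame : (n : k) ≠ 0
  prime_to : ¬ ℓ ∣ n
  smooth : Ideal.span {F, derivative F, tDerivative F} = ⊤

/-- The polynomial `D` is not zero, has no divisor which is the `N`-th power of an irreducible
polynomial, and the branch curve is unramified over the zeros of `D`. -/
structure IsTwist (N : ℕ) (F : k[X][X]) (D : k[X]) : Prop where
  ne_zero : D ≠ 0
  powerFree : ∀ P : k[X], Irreducible P → ¬ P ^ N ∣ D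
  fibres : ∀ P : ClosedPt k, P.1 ∣ D → Squarefree (fibre F P)

/-- The contribution of the zeros of `D`: the sum over the closed points `P` dividing `D` of the sum
of `lPart (deg P * deg Q)` over the points `Q` of the branch curve over `P`, minus `lPart (deg P)`. -/
noncomputable def bound (ℓ : ℕ) (F : k[X][X]) (D : k[X]) : ℤ :=
  ∑ᶠ (P : ClosedPt k) (_ : P.1 ∣ D),
    (∑ Q ∈ primes (fibre F P), lPart ℓ (P.1.natDegree * Q.natDegree) - lPart ℓ P.1.natDegree)

/-- the equivalence of the two descriptions of the points of the plane -/
noncomputable def planeEquiv (D : k[X]) :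
    (Σ P : {P : Pool.Agent.W313.Hyp.MI k // ¬ P.1 ∣ D},
      Pool.Agent.W313.Hyp.MI (Pool.Agent.TH943.HJ.RF P.1)) ≃ PlanePt D where
  toFun z := ⟨z.1.1, z.1.2, z.2⟩
  invFun z := ⟨⟨z.place, z.ndvd⟩, z.point⟩
  left_inv _ := rfl
  right_inv _ := rfl

/-- the equivalence of the two descriptions of the points of the curve -/
noncomputable def curveEquiv (F : k[X][X]) :
    (Σ P : Pool.Agent.W313.Hyp.MI k,
      {Q : Pool.Agent.W313.Hyp.MI (Pool.Agent.TH943.HJ.RF P) // Q.1 ∣ fibre F P}) ≃
      CurvePt F where
  toFun z := ⟨z.1, z.2.1, z.2.2⟩
  invFun z := ⟨z.place, ⟨z.point, z.dvd⟩⟩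
  left_inv _ := rfl
  right_inv _ := rfl

theorem Lfun_eq {A : Type} [CommRing A] (χ : MulChar k A) (F : k[X][X]) (D : k[X]) :
    Lfun χ F D = Pool.Agent.TH639.SG.LFG χ (fibre F) D := by
  unfold Lfun Pool.Agent.TH639.SG.LFG eulerProduct Pool.Agent.W343.BSD.eulerProd
  ext n
  rw [PowerSeries.coeff_mk, PowerSeries.coeff_mk]
  congr 1
  exact (finprod_comp_equiv (planeEquiv D)
    (f := fun z : PlanePt D => ∏ᶠ (_ : z.deg ≤ n), z.factor χ F)).symm

theorem zetaInv_eq (F : k[X][X]) : zetaInv F = Pool.Agent.TH639.SG.zinv (fibre F) := by
  unfold zetaInv Pool.Agent.TH639.SG.zinv eulerProduct Pool.Agent.W343.BSD.eulerProd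
  ext n
  rw [PowerSeries.coeff_mk, PowerSeries.coeff_mk]
  congr 1
  exact (finprod_comp_equiv (curveEquiv F)
    (f := fun z : CurvePt F => ∏ᶠ (_ : z.deg ≤ n), (1 - PowerSeries.X ^ z.deg))).symm

theorem fibre_monic {F : k[X][X]} (hF : F.Monic) (P : ClosedPt k) : (fibre F P).Monic :=
  hF.map _

end defs

/-- **The Tate conjecture for divisors and the class number of the branch curve.**

Let `ℓ` be a prime and `k` a finite field with `q` elements with a character `χ` of `kˣ` of order
`N = ℓ ^ a`, `N ≠ 1, 2` (so `N` divides `q - 1`), with values in an integral domain `A` of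
characteristic zero which is integral over the integers, for instance in the ring of all algebraic
integers. Let `B` be the projective model of a smooth curve `F(t, x) = 0` as in `IsBranchCurve`, for
instance `F = x ^ n + a_1(t) x + a_0(t)` with `deg a_0 = d` prime to `n` and `n deg a_1 < d (n - 1)`:
there is one point at infinity, rational and totally ramified over `t = ∞`. Let `L` be the numerator of
the zeta function of `B`; then `L(1)` is the number of rational points of the Jacobian of `B`. Let `D`
be a polynomial in `t` as in `IsTwist`, for instance a constant different from zero.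

Let `J_D` be the Jacobian of the curve `y ^ N = D(t) F(t, x)` over `K = k(t)`, and `V` the `χ`-part of
its cohomology, that is the cohomology with compact support of the affine line with coefficients in
the Kummer sheaf of `χ` for `D(t) F(t, x)`; its dimension is `n - 1`, because the Kummer sheaf is
ramified at `x = ∞` (`ℓ` does not divide `n`). Its `L`-function `L_χ(D)` is `Lfun`, a polynomial in
`T = q ^ (-s)`: at a finite place which does not divide `D` the invariants under inertia are the
cohomology with compact support of the fibre (the sheaf on the smooth plane is its own extension from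
the complement of the smooth curve `F = 0`, and of the section `x = ∞`, which does not meet that curve,
and the fibres have cohomology in degree one only, so that the direct image is a sheaf which is equal
to its extension from the generic point); at a place dividing `D` the representation `V` is the twist
of an unramified one by a ramified character and there are no invariants; at `t = ∞` the eigenvalues
of a generator of the tame inertia group are the products of an `n`-th root of unity different from
one and a root of unity of `ℓ`-power order, so that there are no invariants either, and there is no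
wild inertia.

(1) Let `Z` be any finite set of roots of unity in `A` whose orders are powers of `ℓ`. The sum over
`ζ` in `Z` of the orders of vanishing of `L_χ(D)` at `T = 1 / (q ζ)` is at most the multiplicity of the
zero one of `L` modulo `ℓ` plus the term `bound`, which depends only on the decomposition in `B` of
the places dividing `D`, and which is zero if `D` is constant. Over the constant extension `k_m`
of `k` of degree `ℓ ^ m` the order of vanishing at `s = 1` of the `L`-function of `V` is the sum of the
orders at the numbers `1 / (q ζ)` with `ζ ^ (ℓ ^ m) = 1`: so the theorem gives a bound for the orders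
of vanishing which holds for all the fields `k_m`.

(2) If the number `L(1)` of rational points of the Jacobian of the branch curve `B` is prime to `ℓ` and
the places dividing `D` are inert in `B` (for instance `D` is constant) then `L_χ(D)` does not vanish
at any `T = 1 / (q ζ)`.

So let `D` be such a polynomial without zeros of multiplicity at least `ℓ`, let `L(1)` be prime to `ℓ`,
and let `X` be a smooth projective surface birational to the surface `y ^ N = D(t) F(t, x)`. The
theorem applies to all characters of order `ℓ ^ b ≠ 2`, `1 ≤ b ≤ a`; for the order two the same bound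
is known. So the function `L(J_D, s)` does not vanish at `s = 1`, over all the fields `k_m(t)`; by
Tate's inequality the rank of `J_D` is zero, and `X` satisfies the Tate conjecture for divisors over
`k_m`, for all `m`: the invariants are spanned by the classes of the components of the fibres over the
`t`-line and of one section, and the multiplicity of the eigenvalue is the dimension. -/
theorem result (ℓ : ℕ) (hℓ : ℓ.Prime) (a : ℕ) (ha : a ≠ 0) (_h2 : ℓ ^ a ≠ 2) (k : Type) [Field k]
    [Finite k] (A : Type) [CommRing A] [IsDomain A] [CharZero A] [Algebra.IsIntegral ℤ A]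
    (χ : MulChar k A) (hχ : orderOf χ = ℓ ^ a) (n d : ℕ) (F : k[X][X])
    (hF : IsBranchCurve ℓ n d F) (L : ℤ[X]) (hL : IsNumerator F L) (D : k[X])
    (hD : IsTwist (ℓ ^ a) F D) (Z : Finset A) (hZ : ∀ ζ ∈ Z, ∃ m : ℕ, ζ ^ (ℓ ^ m) = 1)
    (r : A → ℕ) (hr : VanishesTo χ F D Z r) :
    ((∑ ζ ∈ Z, r ζ : ℕ) : ℤ) ≤ multOne ℓ L + bound ℓ F D ∧
    (¬ (ℓ : ℤ) ∣ L.eval 1 → (∀ P : ClosedPt k, P.1 ∣ D → Irreducible (fibre F P)) →
      ∀ ζ ∈ Z, r ζ = 0) := by
  have hG : ∀ P, fibre F P ≠ 0 := fun P => (fibre_monic hF.monic P).ne_zero
  have hdvd : ℓ ∣ Nat.card k - 1 := by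
    obtain ⟨g, hg⟩ := IsCyclic.exists_generator (α := kˣ)
    have h1 : χ ^ (Nat.card k - 1) = 1 := by
      have hk1 : 1 < Nat.card k := Finite.one_lt_card
      apply MulChar.ext
      intro a
      have := Fintype.ofFinite k
      rw [MulChar.pow_apply' χ (by omega), MulChar.one_apply a.isUnit, ← map_pow,
        Nat.card_eq_fintype_card, FiniteField.pow_card_sub_one_eq_one _ a.ne_zero, map_one]
    have h2 := orderOf_dvd_of_pow_eq_one h1
    rw [hχ] at h2
    exact (dvd_pow_self ℓ ha).trans h2
  have hχ1 : χ ^ (ℓ ^ a) = 1 := by
    rw [← hχ]
    exact pow_orderOf_eq_one χ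
  obtain ⟨H, hH⟩ := hr
  have h1 := Pool.Agent.TH639.SG.order_bound hℓ hdvd hχ1 hG hD.ne_zero (L := L)
    (by rw [← zetaInv_eq]; exact hL) Z hZ r H (by rw [← Lfun_eq]; exact hH)
  have h2 := Pool.Agent.TH639.SG.bnd_eqG ℓ hG hD.ne_zero
  have h3 : bound ℓ F D = ∑ᶠ (P : Pool.Agent.W313.Hyp.MI k) (_ : P.1 ∣ D),
    Pool.Agent.TH639.SG.cG ℓ (fibre F) P := rfl
  have h4 : multOne ℓ L = Pool.Agent.TH639.SG.muL ℓ L := rfl
  have h5 : ((∑ ζ ∈ Z, r ζ : ℕ) : ℤ) ≤ multOne ℓ L + bound ℓ F D := by
    rw [h3, h2, h4]
    zify at h1 ⊢
    linarith
  refine ⟨h5, fun hL1 hP => ?_⟩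
  have h6 : bound ℓ F D = 0 := by
    rw [h3]
    apply finsum_eq_zero_of_forall_eq_zero
    intro P
    classical
    rw [finsum_eq_if]
    split_ifs with hPD
    swap
    · rfl
    apply Pool.Agent.TH639.SG.cG_inert hℓ (hP P hPD) (fibre_monic hF.monic P)
    show ¬ ℓ ∣ (F.map (value P)).natDegree
    rw [hF.monic.natDegree_map, hF.degree]
    exact hF.prime_to
  have hF2 : Fact ℓ.Prime := ⟨hℓ⟩
  rw [h6, h4, Pool.Agent.TH639.SG.muL_eq_zero hL1] at h5
  have h7 : ∑ ζ ∈ Z, r ζ = 0 := by
    have : ((∑ ζ ∈ Z, r ζ : ℕ) : ℤ) ≤ 0 := by simpa using h5
    omega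
  exact fun ζ hζ => Finset.sum_eq_zero_iff.1 h7 ζ hζ

end Pool.Agent.Results.MP_8ac872_ag.BranchCurveClassNumber
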